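import Pool.Agent.H20.S6B.Dpl

/-!
# The double plateau: the telescope (TEL2)

The context is a function of its visible part, of the time and of the `q` digits of the speed
`d (σ 0)`. The digits of the speed are one variable for all the windows, and the visible part at
the window `w (j + 1)` knows the visible part and the block of the position at the window `w j`, up
to a bounded number of values.
-/

set_option autoImplicit false

namespace Pool.H7T

open Finset Real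
open Pool.Agent.H49.Ent Pool.Agent.H32.Dense Pool.STK Pool.KA Pool.KSAT Pool.K2S Pool.S6U
open Pool.PLV Pool.DPL Pool.S6B20

variable {J : ℕ}

section tel2

variable {F : Fam 3 J} {p : F.Ω → ℝ} {σ : Fin 3 → Fin 3} {w w' q V H X n : ℕ}
  {a s t : F.Ω → ℝ} {al kk : (Fin 3 → ℤ) × (ℕ × F.ζ) → ℝ} {ω ω' : F.Ω}

theorem floor_int_sub {A A' : ℤ} {z : ℝ} (h : ⌊(A : ℝ) - z⌋ = ⌊(A' : ℝ) - z⌋) : A = A' := by
  have e : ∀ B : ℤ, ⌊(B : ℝ) - z⌋ = B + ⌊-z⌋ := by
    intro B
    rw [sub_eq_add_neg, Int.floor_intCast_add]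
  rw [e, e] at h
  linarith

theorem own_eq (ha : a ω = a ω') (hG : Gn F V H n al kk ω = Gn F V H n al kk ω') :
    own F V H n a al kk ω = own F V H n a al kk ω' := by
  have h1 : ⌊(2 : ℝ) ^ (V + n) * al (Fam.pt F ω)⌋ = ⌊(2 : ℝ) ^ (V + n) * al (Fam.pt F ω')⌋ :=
    (Prod.ext_iff.mp hG).1
  have h2 : ⌊(2 : ℝ) ^ (V + H + n) * kk (Fam.pt F ω)⌋ =
      ⌊(2 : ℝ) ^ (V + H + n) * kk (Fam.pt F ω')⌋ := (Prod.ext_iff.mp hG).2
  have e1 : rnd (V + n) (al (Fam.pt F ω)) = rnd (V + n) (al (Fam.pt F ω')) := by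
    unfold rnd
    rw [h1]
  have e2 : rnd (V + H + n) (kk (Fam.pt F ω)) = rnd (V + H + n) (kk (Fam.pt F ω')) := by
    unfold rnd
    rw [h2]
  unfold own
  rw [e1, e2, ha]

/-- The context is a function of its visible part, of the time and of the digits of the speed. -/
theorem ctx_of_visc (hv : visc F σ w q V H n a s t al kk ω = visc F σ w q V H n a s t al kk ω')
    (hT : F.T ω = F.T ω')
    (hL : F.mvl (cvl q V H) (frm σ a s t) ω 0 = F.mvl (cvl q V H) (frm σ a s t) ω' 0) :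
    ctx F σ w q V H a s t ω = ctx F σ w q V H a s t ω' := by
  obtain ⟨h1, h2⟩ := Prod.ext_iff.mp hv
  obtain ⟨h3, h4⟩ := Prod.ext_iff.mp h1
  obtain ⟨h5, hG⟩ := Prod.ext_iff.mp h2
  obtain ⟨hc, ho⟩ := Prod.ext_iff.mp h5
  obtain ⟨hT1, hZ⟩ := Prod.ext_iff.mp h3
  obtain ⟨ha, h6⟩ := Prod.ext_iff.mp h4
  obtain ⟨hs, ht⟩ := Prod.ext_iff.mp h6
  change F.T1 w ω = F.T1 w ω' at hT1
  change F.Z ω = F.Z ω' at hZ
  change a ω = a ω' at ha
  change s ω = s ω' at hs
  change t ω = t ω' at ht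
  change vcl F σ w q V H a s t ω = vcl F σ w q V H a s t ω' at hc
  change ovl F σ q V H n a s t al kk ω = ovl F σ q V H n a s t al kk ω' at ho
  change Gn F V H n al kk ω = Gn F V H n al kk ω' at hG
  have how := own_eq ha hG
  have hM : frm σ a s t ω = frm σ a s t ω' := by
    unfold frm
    rw [ha, hs, ht]
  have v1 : F.mvl (cvl q V H) (frm σ a s t) ω 1 = F.mvl (cvl q V H) (frm σ a s t) ω' 1 := by
    have h7 := congrFun ho 0
    change ⌊(F.mvl (cvl q V H) (frm σ a s t) ω 1 : ℝ) -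
        own F V H n a al kk ω 0 * F.mvl (cvl q V H) (frm σ a s t) ω 0⌋ =
      ⌊(F.mvl (cvl q V H) (frm σ a s t) ω' 1 : ℝ) -
        own F V H n a al kk ω' 0 * F.mvl (cvl q V H) (frm σ a s t) ω' 0⌋ at h7
    rw [← how, ← hL] at h7
    exact floor_int_sub h7
  have v2 : F.mvl (cvl q V H) (frm σ a s t) ω 2 = F.mvl (cvl q V H) (frm σ a s t) ω' 2 := by
    have h7 := congrFun ho 1
    change ⌊(F.mvl (cvl q V H) (frm σ a s t) ω 2 : ℝ) -
        own F V H n a al kk ω 1 * F.mvl (cvl q V H) (frm σ a s t) ω 0⌋ =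
      ⌊(F.mvl (cvl q V H) (frm σ a s t) ω' 2 : ℝ) -
        own F V H n a al kk ω' 1 * F.mvl (cvl q V H) (frm σ a s t) ω' 0⌋ at h7
    rw [← how, ← hL] at h7
    exact floor_int_sub h7
  have hvl : F.mvl (cvl q V H) (frm σ a s t) ω = F.mvl (cvl q V H) (frm σ a s t) ω' := by
    funext i
    fin_cases i
    · exact hL
    · exact v1
    · exact v2
  have hps : F.mps w (fun i => cvl q V H i + w) (frm σ a s t) ω =
      F.mps w (fun i => cvl q V H i + w) (frm σ a s t) ω' := by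
    funext i
    have h8 := congrFun hc i
    change ⌊(F.mps w (fun i => cvl q V H i + w) (frm σ a s t) ω i : ℝ) +
        F.wt w ω * F.mvl (cvl q V H) (frm σ a s t) ω i⌋ =
      ⌊(F.mps w (fun i => cvl q V H i + w) (frm σ a s t) ω' i : ℝ) +
        F.wt w ω' * F.mvl (cvl q V H) (frm σ a s t) ω' i⌋ at h8
    have hw : F.wt w ω = F.wt w ω' := by
      unfold Fam.wt
      rw [hT]
    rw [← hvl, ← hw, Int.floor_intCast_add, Int.floor_intCast_add] at h8
    linarith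
  exact Box.mlb_mk hT1 hM hps hvl hZ

theorem mx_mem (F : Fam 3 J) (w : ℕ) (c : Fin 3 → ℕ) (M : F.Ω → Fin 3 → Fin 3 → ℝ) (ω : F.Ω)
    (i : Fin 3) : 0 ≤ F.mx w c M ω i ∧ F.mx w c M ω i < 2 := by
  have h1 := Box.mu_mem F w (fun i => c i + w) M ω i
  have h2 := Box.md_mem F c M ω i
  have h3 := Lab.wt_mem F w ω
  unfold Fam.mx
  constructor
  · have := mul_nonneg h3.1 h2.1
    linarith [h1.1]
  · have : F.wt w ω * F.md c M ω i ≤ 1 := mul_le_one₀ h3.2.le h2.1 h2.2.le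
    linarith [h1.2]

/-- The position relative to the visible cell. -/
theorem ypos_eq (hw : w ≤ J) (i : Fin 3) :
    ypos F σ w q V H a s t ω i = 2 ^ (cvl q V H i + w) * mco (frm σ a s t ω) (F.x ω) i -
      vcl F σ w q V H a s t ω i := by
  rw [Box.pos_eq F hw (cvl q V H) (frm σ a s t) ω i]
  unfold ypos vcl Int.fract
  ring

theorem ypos_mem (F : Fam 3 J) (σ : Fin 3 → Fin 3) (w q V H : ℕ) (a s t : F.Ω → ℝ) (ω : F.Ω)
    (i : Fin 3) : 0 ≤ ypos F σ w q V H a s t ω i ∧ ypos F σ w q V H a s t ω i < 3 := by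
  have h1 := mx_mem F w (cvl q V H) (frm σ a s t) ω i
  have h2 := Int.fract_nonneg (F.mkn w (cvl q V H) (frm σ a s t) ω i)
  have h3 := Int.fract_lt_one (F.mkn w (cvl q V H) (frm σ a s t) ω i)
  unfold ypos
  constructor <;> linarith [h1.1, h1.2]

/-- The positions of two samples with the same visible cell. -/
theorem pos_near (hw : w ≤ J) (hM : frm σ a s t ω = frm σ a s t ω')
    (hc : vcl F σ w q V H a s t ω = vcl F σ w q V H a s t ω') (i : Fin 3) :
    |2 ^ (cvl q V H i + w) * mco (frm σ a s t ω) (F.x ω) i -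
      2 ^ (cvl q V H i + w) * mco (frm σ a s t ω) (F.x ω') i| ≤ 3 := by
  have h1 := ypos_eq (F := F) (σ := σ) (q := q) (V := V) (H := H) (a := a) (s := s) (t := t)
    (ω := ω) hw i
  have h2 := ypos_eq (F := F) (σ := σ) (q := q) (V := V) (H := H) (a := a) (s := s) (t := t)
    (ω := ω') hw i
  have h3 := ypos_mem F σ w q V H a s t ω i
  have h4 := ypos_mem F σ w q V H a s t ω' i
  rw [← hM] at h2
  have h5 : (vcl F σ w q V H a s t ω i : ℝ) = vcl F σ w q V H a s t ω' i := by rw [hc]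
  rw [abs_le]
  constructor <;> linarith [h3.1, h3.2, h4.1, h4.2]

/-- The visible cell and the block at the window `w` from the visible cell at the window `w'`. -/
theorem cell_near (hw : w ≤ J) (hw' : w' ≤ J) (hX : w + X ≤ w')
    (hM : frm σ a s t ω = frm σ a s t ω')
    (hc : vcl F σ w' q V H a s t ω = vcl F σ w' q V H a s t ω') (i : Fin 3) :
    |((vcl F σ w q V H a s t ω i - vcl F σ w q V H a s t ω' i : ℤ) : ℝ)| ≤ 6 ∧
    (vcl F σ w q V H a s t ω = vcl F σ w q V H a s t ω' →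
      |((⌊(2 : ℝ) ^ X * ypos F σ w q V H a s t ω i⌋ -
        ⌊(2 : ℝ) ^ X * ypos F σ w q V H a s t ω' i⌋ : ℤ) : ℝ)| ≤ 4) := by
  obtain ⟨d, rfl⟩ := Nat.exists_eq_add_of_le hX
  have h1 := pos_near (q := q) (V := V) (H := H) hw' hM hc i
  have e1 : ∀ x : ℝ, (2 : ℝ) ^ (cvl q V H i + (w + X + d)) * x =
      2 ^ d * (2 ^ X * (2 ^ (cvl q V H i + w) * x)) := by
    intro x
    rw [show cvl q V H i + (w + X + d) = d + X + (cvl q V H i + w) by ring, pow_add, pow_add]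
    ring
  rw [e1, e1, ← mul_sub, abs_mul, abs_of_pos (by positivity : (0 : ℝ) < 2 ^ d)] at h1
  have hd : (1 : ℝ) ≤ 2 ^ d := one_le_pow₀ (by norm_num)
  have hXX : (1 : ℝ) ≤ 2 ^ X := one_le_pow₀ (by norm_num)
  have h2 : |2 ^ X * (2 ^ (cvl q V H i + w) * mco (frm σ a s t ω) (F.x ω) i) -
      2 ^ X * (2 ^ (cvl q V H i + w) * mco (frm σ a s t ω) (F.x ω') i)| ≤ 3 := by
    have := abs_nonneg (2 ^ X * (2 ^ (cvl q V H i + w) * mco (frm σ a s t ω) (F.x ω) i) -
      2 ^ X * (2 ^ (cvl q V H i + w) * mco (frm σ a s t ω) (F.x ω') i))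
    nlinarith
  have h3 : |2 ^ (cvl q V H i + w) * mco (frm σ a s t ω) (F.x ω) i -
      2 ^ (cvl q V H i + w) * mco (frm σ a s t ω) (F.x ω') i| ≤ 3 := by
    have h4 := h2
    rw [← mul_sub, abs_mul, abs_of_pos (by positivity : (0 : ℝ) < 2 ^ X)] at h4
    have := abs_nonneg (2 ^ (cvl q V H i + w) * mco (frm σ a s t ω) (F.x ω) i -
      2 ^ (cvl q V H i + w) * mco (frm σ a s t ω) (F.x ω') i)
    nlinarith
  have y1 := ypos_eq (F := F) (σ := σ) (q := q) (V := V) (H := H) (a := a) (s := s) (t := t)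
    (ω := ω) hw i
  have y2 := ypos_eq (F := F) (σ := σ) (q := q) (V := V) (H := H) (a := a) (s := s) (t := t)
    (ω := ω') hw i
  rw [← hM] at y2
  have m1 := ypos_mem F σ w q V H a s t ω i
  have m2 := ypos_mem F σ w q V H a s t ω' i
  refine ⟨?_, fun hcc => ?_⟩
  · push_cast
    rw [abs_le] at h3 ⊢
    constructor <;> linarith [h3.1, h3.2, m1.1, m1.2, m2.1, m2.2]
  · have e2 : (2 : ℝ) ^ X * ypos F σ w q V H a s t ω i -
        2 ^ X * ypos F σ w q V H a s t ω' i =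
        2 ^ X * (2 ^ (cvl q V H i + w) * mco (frm σ a s t ω) (F.x ω) i) -
          2 ^ X * (2 ^ (cvl q V H i + w) * mco (frm σ a s t ω) (F.x ω') i) := by
      rw [y1, y2, hcc]
      ring
    refine (Plk.floor_sub_lt (c := 3) ?_).trans (by norm_num)
    rw [e2]
    exact h2

/-- The step of the telescope. -/
theorem step2 (hp : IsLaw p) (hw : w ≤ J) (hw' : w' ≤ J) (hX : w + X ≤ w') :
    CH p (fun ω => (pbl F σ w q V H X a s t ω, (visc F σ w q V H n a s t al kk ω, F.T ω)))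
      (fun ω => (visc F σ w' q V H n a s t al kk ω, F.T ω)) ≤
      3 * Real.log 13 + 3 * Real.log 9 := by
  have h0 := hp.nonneg
  have base : ∀ ω ω' : F.Ω, (visc F σ w' q V H n a s t al kk ω, F.T ω) =
      (visc F σ w' q V H n a s t al kk ω', F.T ω') →
      frm σ a s t ω = frm σ a s t ω' ∧ vcl F σ w' q V H a s t ω = vcl F σ w' q V H a s t ω' ∧
      F.Z ω = F.Z ω' ∧ (a ω, s ω, t ω) = (a ω', s ω', t ω') ∧
      ovl F σ q V H n a s t al kk ω = ovl F σ q V H n a s t al kk ω' ∧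
      Gn F V H n al kk ω = Gn F V H n al kk ω' ∧ F.T ω = F.T ω' := by
    intro ω ω' h
    obtain ⟨hv, hT⟩ := Prod.ext_iff.mp h
    obtain ⟨h1, h2⟩ := Prod.ext_iff.mp hv
    obtain ⟨h3, h4⟩ := Prod.ext_iff.mp h1
    obtain ⟨h5, hG⟩ := Prod.ext_iff.mp h2
    obtain ⟨hc, ho⟩ := Prod.ext_iff.mp h5
    obtain ⟨hT1, hZ⟩ := Prod.ext_iff.mp h3
    obtain ⟨ha, h6⟩ := Prod.ext_iff.mp h4
    obtain ⟨hs, ht⟩ := Prod.ext_iff.mp h6
    change a ω = a ω' at ha
    change s ω = s ω' at hs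
    change t ω = t ω' at ht
    refine ⟨?_, hc, hZ, h4, ho, hG, hT⟩
    unfold frm
    rw [ha, hs, ht]
  -- the visible cell
  have k1 : CH p (vcl F σ w q V H a s t)
      (fun ω => (visc F σ w' q V H n a s t al kk ω, F.T ω)) ≤ 3 * Real.log 13 := by
    have e : (3 : ℝ) * Real.log 13 = ((3 : ℕ) : ℝ) * Real.log (2 * 6 + 1) := by norm_num
    rw [e]
    refine Plk.CH_vec_const hp _ _ fun ω ω' _ _ h i => ?_
    obtain ⟨b1, b2, _⟩ := base ω ω' h
    exact (cell_near hw hw' hX b1 b2 i).1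
  -- the block
  have k2 : CH p (fun ω (i : Fin 3) => ⌊(2 : ℝ) ^ X * ypos F σ w q V H a s t ω i⌋)
      (fun ω => (vcl F σ w q V H a s t ω, (visc F σ w' q V H n a s t al kk ω, F.T ω))) ≤
      3 * Real.log 9 := by
    have e : (3 : ℝ) * Real.log 9 = ((3 : ℕ) : ℝ) * Real.log (2 * 4 + 1) := by norm_num
    rw [e]
    refine Plk.CH_vec_const hp _ _ fun ω ω' _ _ h i => ?_
    obtain ⟨h1, h2⟩ := Prod.ext_iff.mp h
    obtain ⟨b1, b2, _⟩ := base ω ω' h2
    exact (cell_near hw hw' hX b1 b2 i).2 h1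
  have k3 := CH_chain h0 (fun ω (i : Fin 3) => ⌊(2 : ℝ) ^ X * ypos F σ w q V H a s t ω i⌋)
    (vcl F σ w q V H a s t) (fun ω => (visc F σ w' q V H n a s t al kk ω, F.T ω))
  have k4 : CH p (fun ω => (pbl F σ w q V H X a s t ω, (visc F σ w q V H n a s t al kk ω, F.T ω)))
      (fun ω => (visc F σ w' q V H n a s t al kk ω, F.T ω)) ≤
      CH p (fun ω => ((fun (i : Fin 3) => ⌊(2 : ℝ) ^ X * ypos F σ w q V H a s t ω i⌋),
        vcl F σ w q V H a s t ω)) (fun ω => (visc F σ w' q V H n a s t al kk ω, F.T ω)) := by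
    refine CH_mono_left h0 ?_
    intro ω ω' _ _ h
    obtain ⟨h1, h2⟩ := Prod.ext_iff.mp h
    obtain ⟨h3, h4⟩ := Prod.ext_iff.mp h1
    change vcl F σ w q V H a s t ω = vcl F σ w q V H a s t ω' at h4
    obtain ⟨b1, b2, b3, b4, b5, b6, b7⟩ := base ω ω' h2
    have c1 : pbl F σ w q V H X a s t ω = pbl F σ w q V H X a s t ω' :=
      Prod.ext (congrFun h3 0) (funext fun i => congrFun h3 i.succ)
    have c2 : F.T1 w ω = F.T1 w ω' := by
      unfold Fam.T1
      rw [b7]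
    have c3 : visc F σ w q V H n a s t al kk ω = visc F σ w q V H n a s t al kk ω' := by
      unfold visc
      rw [c2, b3, b4, h4, b5, b6]
    change (pbl F σ w q V H X a s t ω, (visc F σ w q V H n a s t al kk ω, F.T ω)) =
      (pbl F σ w q V H X a s t ω', (visc F σ w q V H n a s t al kk ω', F.T ω'))
    rw [c1, c3, b7]
  linarith

/-- The digits of the speed. -/
theorem CH_speed (hp : IsLaw p) {S : Type} (W : F.Ω → S) :
    CH p (fun ω => F.mvl (cvl q V H) (frm σ a s t) ω 0) W ≤ q * Real.log 2 + Real.log 7 := by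
  have hq : (1 : ℝ) ≤ 2 ^ q := one_le_pow₀ (by norm_num)
  have hlog : Real.log (2 * (2 * 2 ^ q + 1) + 1) ≤ q * Real.log 2 + Real.log 7 := by
    have e : (q : ℝ) * Real.log 2 + Real.log 7 = Real.log (2 ^ q * 7) := by
      rw [Real.log_mul (by positivity) (by norm_num), Real.log_pow]
    rw [e]
    exact Real.log_le_log (by positivity) (by nlinarith)
  refine (CH_int hp _ W (c := 2 * 2 ^ q + 1) fun ω ω' _ _ _ => ?_).trans hlog
  change |((⌊(2 : ℝ) ^ q * mco (frm σ a s t ω) (F.d ω) 0⌋ -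
    ⌊(2 : ℝ) ^ q * mco (frm σ a s t ω') (F.d ω') 0⌋ : ℤ) : ℝ)| ≤ _
  refine Plk.floor_sub_lt (c := 2 * 2 ^ q) ?_
  unfold frm
  rw [Box.mco_tfr0, Box.mco_tfr0, ← mul_sub, abs_mul,
    abs_of_pos (by positivity : (0 : ℝ) < 2 ^ q)]
  have h1 := F.dir ω (σ 0)
  have h2 := F.dir ω' (σ 0)
  have h3 : |F.d ω (σ 0) - F.d ω' (σ 0)| ≤ 2 := (abs_sub _ _).trans (by linarith)
  nlinarith

end tel2

/-- **(TEL2)** -/
theorem tel2 : Tel2Stmt := by
  intro B _
  refine ⟨Real.log 7 + (3 * Real.log 13 + 3 * Real.log 9), ?_, ?_⟩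
  · have l1 := Real.log_nonneg (show (1 : ℝ) ≤ 7 by norm_num)
    have l2 := Real.log_nonneg (show (1 : ℝ) ≤ 13 by norm_num)
    have l3 := Real.log_nonneg (show (1 : ℝ) ≤ 9 by norm_num)
    linarith
  intro J F A σ N X w q V H n a s t al kk hp hws hJ _ _ _ _
  have h0 := hp.nonneg
  have l1 := Real.log_nonneg (show (1 : ℝ) ≤ 7 by norm_num)
  have l2 := Real.log_nonneg (show (1 : ℝ) ≤ 13 by norm_num)
  have l3 := Real.log_nonneg (show (1 : ℝ) ≤ 9 by norm_num)
  have hwJ : ∀ j, j ≤ N → w j ≤ J := fun j hj => by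
    have := ws_mono hws hj
    omega
  have key := tele hp N (fun _ => fun ω => F.mvl (cvl q V H) (frm σ a s t) ω 0)
    (fun j => pbl F σ (w j) q V H X a s t)
    (fun j ω => (visc F σ (w j) q V H n a s t al kk ω, F.T ω))
    (c₁ := 3 * Real.log 13 + 3 * Real.log 9) (c₂ := 0) (by linarith) le_rfl
    (fun j hj => step2 hp (hwJ j (by omega)) (hwJ (j + 1) (by omega)) (hws j (by omega)))
    (fun j _ => le_of_eq (CH_eq_zero h0 fun _ _ _ _ h => (Prod.ext_iff.mp h).1))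
  have a1 := CH_speed (F := F) (σ := σ) (q := q) (V := V) (H := H) (a := a) (s := s) (t := t) hp
    (fun ω => (visc F σ (w 0) q V H n a s t al kk ω, F.T ω))
  have a2 : ∀ j ∈ range N, cost2 F A σ w q V H X n a s t al kk j ≤
      dp (Pool.Agent.H49.Ent.cond F.p A True)
        (fun ω => F.mvl (cvl q V H) (frm σ a s t) ω 0) (pbl F σ (w j) q V H X a s t)
        (fun ω => (visc F σ (w j) q V H n a s t al kk ω, F.T ω)) := by
    intro j _
    unfold cost2
    rw [MI_eq_dp h0, dp_symm h0]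
    have b1 := dp_le_add (p := Pool.Agent.H49.Ent.cond F.p A True) h0
      (N := ctx F σ (w j) q V H a s t)
      (N' := fun ω => F.mvl (cvl q V H) (frm σ a s t) ω 0)
      (V := pbl F σ (w j) q V H X a s t)
      (b := fun ω => (visc F σ (w j) q V H n a s t al kk ω, F.T ω)) (c := 0)
      (le_of_eq (CH_eq_zero h0 fun ω ω' _ _ h => by
        obtain ⟨h1, h2⟩ := Prod.ext_iff.mp h
        obtain ⟨h3, h4⟩ := Prod.ext_iff.mp h2
        exact ctx_of_visc h3 h4 h1))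
    linarith
  have a3 := Finset.sum_le_sum a2
  have hN : (0 : ℝ) ≤ N := Nat.cast_nonneg N
  have f1 : 0 ≤ (N : ℝ) * Real.log 7 := mul_nonneg hN l1
  nlinarith

/-! ### The grid -/

/-- **(GRID)** -/
theorem grid {N M : ℕ} (hN : 0 < N) (hM : 0 < M) {c1 c2 c3 : ℕ → ℕ → ℝ} {D1 D2 D3 : ℝ}
    (h1 : ∀ j k, 0 ≤ c1 j k) (h2 : ∀ j k, 0 ≤ c2 j k) (h3 : ∀ j k, 0 ≤ c3 j k)
    (s1 : ∀ k < M, ∑ j ∈ range N, c1 j k ≤ D1) (s2 : ∀ k < M, ∑ j ∈ range N, c2 j k ≤ D2)
    (s3 : ∀ j < N, ∑ k ∈ range M, c3 j k ≤ D3) :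
    ∃ j < N, ∃ k < M, c1 j k ≤ 3 * D1 / N ∧ c2 j k ≤ 3 * D2 / N ∧ c3 j k ≤ 3 * D3 / M := by
  have hN' : (0 : ℝ) < N := by exact_mod_cast hN
  have hM' : (0 : ℝ) < M := by exact_mod_cast hM
  have gen : ∀ (c : ℕ → ℕ → ℝ) (S D : ℝ), 0 < S → (∀ j k, 0 ≤ c j k) →
      ∑ j ∈ range N, ∑ k ∈ range M, c j k ≤ N * M * (D / S) →
      (((range N ×ˢ range M).filter fun x : ℕ × ℕ => 3 * D / S < c x.1 x.2).card : ℝ) * 3 ≤
        N * M ∧ ((((range N ×ˢ range M).filter fun x : ℕ × ℕ => 3 * D / S < c x.1 x.2).card : ℝ)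
          * 3 = N * M → ((range N ×ˢ range M).filter
            fun x : ℕ × ℕ => 3 * D / S < c x.1 x.2).card = 0) := by
    intro c S D hS hc hs
    obtain ⟨T, hT⟩ : ∃ T, T = (range N ×ˢ range M).filter
      fun x : ℕ × ℕ => 3 * D / S < c x.1 x.2 := ⟨_, rfl⟩
    rw [← hT]
    have e1 : ∑ x ∈ range N ×ˢ range M, c x.1 x.2 = ∑ j ∈ range N, ∑ k ∈ range M, c j k :=
      Finset.sum_product _ _ _
    have hsub : T ⊆ range N ×ˢ range M := by
      rw [hT]
      exact Finset.filter_subset _ _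
    have e2 : ∑ x ∈ T, c x.1 x.2 ≤ ∑ x ∈ range N ×ˢ range M, c x.1 x.2 :=
      Finset.sum_le_sum_of_subset_of_nonneg hsub fun x _ _ => hc x.1 x.2
    have hDS : 0 ≤ D / S := by
      have h5 : 0 ≤ ∑ x ∈ range N ×ˢ range M, c x.1 x.2 :=
        Finset.sum_nonneg fun x _ => hc x.1 x.2
      rw [e1] at h5
      have h6 := h5.trans hs
      by_contra hneg
      push Not at hneg
      have : (N : ℝ) * M * (D / S) < 0 := mul_neg_of_pos_of_neg (mul_pos hN' hM') hneg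
      linarith
    rcases T.eq_empty_or_nonempty with hE | hE
    · rw [hE]
      simp only [card_empty, Nat.cast_zero, zero_mul, implies_true, and_true]
      positivity
    · have e3 : (T.card : ℝ) * (3 * D / S) < ∑ x ∈ T, c x.1 x.2 := by
        have : ∑ x ∈ T, 3 * D / S < ∑ x ∈ T, c x.1 x.2 := by
          refine Finset.sum_lt_sum_of_nonempty hE fun x hx => ?_
          rw [hT] at hx
          exact (Finset.mem_filter.1 hx).2
        rw [Finset.sum_const, nsmul_eq_mul] at this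
        exact this
      have e4 : (T.card : ℝ) * (3 * D / S) = T.card * 3 * (D / S) := by ring
      rw [e4] at e3
      rw [e1] at e2
      have e5 : (T.card : ℝ) * 3 * (D / S) < N * M * (D / S) := by linarith
      have e6 : (T.card : ℝ) * 3 < N * M := by
        by_contra hge
        push Not at hge
        have := mul_le_mul_of_nonneg_right hge hDS
        linarith
      exact ⟨e6.le, fun h => absurd h (ne_of_lt e6)⟩
  have sw : ∀ c : ℕ → ℕ → ℝ, ∑ j ∈ range N, ∑ k ∈ range M, c j k =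
      ∑ k ∈ range M, ∑ j ∈ range N, c j k := fun c => Finset.sum_comm
  have t1 : ∑ j ∈ range N, ∑ k ∈ range M, c1 j k ≤ N * M * (D1 / N) := by
    rw [sw]
    refine (Finset.sum_le_sum fun k hk => s1 k (Finset.mem_range.1 hk)).trans (le_of_eq ?_)
    rw [Finset.sum_const, card_range, nsmul_eq_mul]
    field_simp
  have t2 : ∑ j ∈ range N, ∑ k ∈ range M, c2 j k ≤ N * M * (D2 / N) := by
    rw [sw]
    refine (Finset.sum_le_sum fun k hk => s2 k (Finset.mem_range.1 hk)).trans (le_of_eq ?_)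
    rw [Finset.sum_const, card_range, nsmul_eq_mul]
    field_simp
  have t3 : ∑ j ∈ range N, ∑ k ∈ range M, c3 j k ≤ N * M * (D3 / M) := by
    refine (Finset.sum_le_sum fun j hj => s3 j (Finset.mem_range.1 hj)).trans (le_of_eq ?_)
    rw [Finset.sum_const, card_range, nsmul_eq_mul]
    field_simp
  obtain ⟨g1, g1'⟩ := gen c1 N D1 hN' h1 t1
  obtain ⟨g2, g2'⟩ := gen c2 N D2 hN' h2 t2
  obtain ⟨g3, g3'⟩ := gen c3 M D3 hM' h3 t3
  by_contra hcon
  push Not at hcon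
  obtain ⟨T1, hT1⟩ : ∃ T, T = (range N ×ˢ range M).filter
    fun x : ℕ × ℕ => 3 * D1 / N < c1 x.1 x.2 := ⟨_, rfl⟩
  obtain ⟨T2, hT2⟩ : ∃ T, T = (range N ×ˢ range M).filter
    fun x : ℕ × ℕ => 3 * D2 / N < c2 x.1 x.2 := ⟨_, rfl⟩
  obtain ⟨T3, hT3⟩ : ∃ T, T = (range N ×ˢ range M).filter
    fun x : ℕ × ℕ => 3 * D3 / M < c3 x.1 x.2 := ⟨_, rfl⟩
  rw [← hT1] at g1 g1'
  rw [← hT2] at g2 g2'
  rw [← hT3] at g3 g3'
  have hcov : range N ×ˢ range M ⊆ T1 ∪ (T2 ∪ T3) := by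
    intro x hx
    have hx' := hx
    rw [Finset.mem_product, Finset.mem_range, Finset.mem_range] at hx'
    rw [Finset.mem_union, Finset.mem_union, hT1, hT2, hT3, Finset.mem_filter, Finset.mem_filter,
      Finset.mem_filter]
    by_cases k1 : c1 x.1 x.2 ≤ 3 * D1 / N
    · by_cases k2 : c2 x.1 x.2 ≤ 3 * D2 / N
      · exact Or.inr (Or.inr ⟨hx, hcon x.1 hx'.1 x.2 hx'.2 k1 k2⟩)
      · exact Or.inr (Or.inl ⟨hx, not_le.1 k2⟩)
    · exact Or.inl ⟨hx, not_le.1 k1⟩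
  have hcard := Finset.card_le_card hcov
  have u1 := Finset.card_union_le T1 (T2 ∪ T3)
  have u2 := Finset.card_union_le T2 T3
  rw [Finset.card_product, card_range, card_range] at hcard
  have u3 : ((N * M : ℕ) : ℝ) ≤ T1.card + (T2.card + T3.card) := by
    exact_mod_cast hcard.trans (u1.trans (by omega))
  push_cast at u3
  have q1 : (T1.card : ℝ) * 3 = N * M := by linarith
  have q2 : (T2.card : ℝ) * 3 = N * M := by linarith
  have q3 : (T3.card : ℝ) * 3 = N * M := by linarith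
  have r1 := g1' q1
  rw [r1, Nat.cast_zero, zero_mul] at q1
  have : (0 : ℝ) < N * M := mul_pos hN' hM'
  linarith

end Pool.H7T
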