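import Pool.Agent.H10.S6U.Chn
import Pool.Agent.H46.S6.PlvA

/-!
# The visible part of a context and the telescope of (H7)

`stc w c M` is the static cell: the cell of the position at the exact time, `c i + w` digits of the
coordinate `i` in the frame `M`; `sbk X w c M` has `X` further digits. The velocity is
`wv + lam • e`, where the direction `e` and the own velocity `wv` are visible (functions of the
exact point) and the speed `lam` is not. `own` are the cells of `e` and `wv` with `c i` digits in the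
frame `M`. The visible part `vsb` of the context `F.blb w c M` is the static cell, the frame, the side
information, and `own`.

* `CH_blb_of_vis`: the context is a function of its visible part, of `q` digits of the speed and of
  the time, up to a bounded number of values.
* `h7_sum`: the dependences of a fixed variable (the digits of the speed) on the blocks of the
  position after the static cells of the windows `w 0 < w 1 < ..`, given the visible parts, sum up to
  at most one entropy.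
* `mxs`: the position in the box of the context, relative to a corner of static cells.
-/

set_option autoImplicit false

namespace Pool.H7T

open Finset Real
open Pool.Agent.H49.Ent Pool.Agent.H32.Dense Pool.STK Pool.KA Pool.KSAT Pool.K2S Pool.S6U

variable {m J : ℕ}

/-! ### Definitions -/

/-- The static cell: the cell of the position at the exact time. -/
noncomputable def stc (F : Fam m J) (w : ℕ) (c : Fin m → ℕ) (M : F.Ω → Fin m → Fin m → ℝ)
    (ω : F.Ω) : Fin m → ℤ := flk (fun i => c i + w) (mco (M ω) (F.x ω))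

/-- The static cell with `X` further digits. -/
noncomputable def sbk (F : Fam m J) (X w : ℕ) (c : Fin m → ℕ) (M : F.Ω → Fin m → Fin m → ℝ)
    (ω : F.Ω) : Fin m → ℤ := flk (fun i => c i + w + X) (mco (M ω) (F.x ω))

/-- The own velocity. -/
def wv (F : Fam m J) (lam : F.Ω → ℝ) (e : F.Ω → Fin m → ℝ) (ω : F.Ω) (i : Fin m) : ℝ :=
  F.d ω i - lam ω * e ω i

/-- The cells of a vector in the frame. -/
noncomputable def vcl {F : Fam m J} (c : Fin m → ℕ) (M : F.Ω → Fin m → Fin m → ℝ)
    (v : F.Ω → Fin m → ℝ) (ω : F.Ω) : Fin m → ℤ := flk c (mco (M ω) (v ω))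

/-- The own direction and the own velocity, cells in the frame. -/
noncomputable def own (F : Fam m J) (c : Fin m → ℕ) (M : F.Ω → Fin m → Fin m → ℝ)
    (lam : F.Ω → ℝ) (e : F.Ω → Fin m → ℝ) (ω : F.Ω) : (Fin m → ℤ) × (Fin m → ℤ) :=
  (vcl c M e ω, vcl c M (wv F lam e) ω)

/-- The visible part of the context with the further visible data `H`. -/
noncomputable def vsh {η : Type} (F : Fam m J) (w : ℕ) (c : Fin m → ℕ)
    (M : F.Ω → Fin m → Fin m → ℝ) (H : F.Ω → η) (ω : F.Ω) :
    (F.ζ × (Fin m → Fin m → ℝ)) × ((Fin m → ℤ) × η) :=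
  ((F.Z ω, M ω), (stc F w c M ω, H ω))

/-- The visible part of the context. -/
noncomputable def vsb (F : Fam m J) (w : ℕ) (c : Fin m → ℕ) (M : F.Ω → Fin m → Fin m → ℝ)
    (lam : F.Ω → ℝ) (e : F.Ω → Fin m → ℝ) (ω : F.Ω) :=
  vsh F w c M (own F c M lam e) ω

/-- The variable data of the visible part. -/
noncomputable def gvs (F : Fam m J) (w : ℕ) (c : Fin m → ℕ) (M : F.Ω → Fin m → Fin m → ℝ)
    (lam : F.Ω → ℝ) (e : F.Ω → Fin m → ℝ) (ω : F.Ω) :
    (Fin m → ℤ) × ((Fin m → ℤ) × (Fin m → ℤ)) :=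
  (stc F w c M ω, own F c M lam e ω)

/-- The position in the box of the context at the exact time, relative to a corner of the static
cells. -/
noncomputable def mxs (F : Fam m J) (w : ℕ) (c : Fin m → ℕ) (M : F.Ω → Fin m → Fin m → ℝ)
    (ω : F.Ω) (i : Fin m) : ℝ := F.mx w c M ω i + Int.fract (F.mkn w c M ω i)

/-! ### Cells -/

theorem cell_le {a b : ℕ} (h : a ≤ b) {x y : ℝ} (he : ⌊(2 : ℝ) ^ b * x⌋ = ⌊(2 : ℝ) ^ b * y⌋) :
    ⌊(2 : ℝ) ^ a * x⌋ = ⌊(2 : ℝ) ^ a * y⌋ := by
  have h1 := Uni.floor_row (X := b) (r := a) h x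
  have h2 := Uni.floor_row (X := b) (r := a) h y
  rw [← h1, ← h2, he]

theorem flk_le {a b : Fin m → ℕ} (h : ∀ i, a i ≤ b i) {x y : Fin m → ℝ}
    (he : flk b x = flk b y) : flk a x = flk a y := by
  funext i
  exact cell_le (h i) (congrFun he i)

section det

variable {F : Fam m J} {w w' X : ℕ} {c c' : Fin m → ℕ} {M : F.Ω → Fin m → Fin m → ℝ}
  {lam : F.Ω → ℝ} {e : F.Ω → Fin m → ℝ} {ω ω' : F.Ω}

theorem stc_of_sbk (h : sbk F X w c M ω = sbk F X w c M ω') :
    stc F w c M ω = stc F w c M ω' :=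
  flk_le (fun _ => Nat.le_add_right _ _) h

theorem sbk_of_stc (h : ∀ i, c i + w + X ≤ c' i + w')
    (he : stc F w' c' M ω = stc F w' c' M ω') : sbk F X w c M ω = sbk F X w c M ω' :=
  flk_le h he

theorem vcl_le {v : F.Ω → Fin m → ℝ} (h : ∀ i, c i ≤ c' i)
    (he : vcl c' M v ω = vcl c' M v ω') : vcl c M v ω = vcl c M v ω' :=
  flk_le h he

theorem own_le (h : ∀ i, c i ≤ c' i) (he : own F c' M lam e ω = own F c' M lam e ω') :
    own F c M lam e ω = own F c M lam e ω' :=
  Prod.ext (vcl_le h (Prod.ext_iff.mp he).1) (vcl_le h (Prod.ext_iff.mp he).2)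

theorem vsb_eq (F : Fam m J) (w : ℕ) (c : Fin m → ℕ) (M : F.Ω → Fin m → Fin m → ℝ)
    (lam : F.Ω → ℝ) (e : F.Ω → Fin m → ℝ) (ω : F.Ω) :
    vsb F w c M lam e ω = ((F.Z ω, M ω), gvs F w c M lam e ω) := rfl

/-- The visible part is a function of the context and of `gvs`. -/
theorem vsb_det (hb : F.blb w c M ω = F.blb w c M ω')
    (hG : gvs F w c M lam e ω = gvs F w c M lam e ω') :
    vsb F w c M lam e ω = vsb F w c M lam e ω' := by
  obtain ⟨h1, h2, h3, h4, h5⟩ := Box.mlb_ext hb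
  rw [vsb_eq, vsb_eq, h2, h5, hG]

end det

/-! ### (c) The context from its visible part -/

theorem mco_wv (F : Fam m J) (M : Fin m → Fin m → ℝ) (lam : F.Ω → ℝ) (e : F.Ω → Fin m → ℝ)
    (ω : F.Ω) (i : Fin m) :
    mco M (F.d ω) i = mco M (wv F lam e ω) i + lam ω * mco M (e ω) i := by
  rw [← Box.mco_add_mul]
  congr 1
  funext j
  unfold wv
  ring

section vis

variable {F : Fam m J} {p : F.Ω → ℝ} {w q : ℕ} {c : Fin m → ℕ}
  {M : F.Ω → Fin m → Fin m → ℝ} {lam : F.Ω → ℝ} {e : F.Ω → Fin m → ℝ} {B : ℝ}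

/-- **(c)** The context is a function of its visible part, of `q` digits of the speed and of the
time, up to a bounded number of values. -/
theorem CH_blb_of_vis {S : Type} (hp : IsLaw p) (hw : w ≤ J) (hB : 1 ≤ B)
    (hlam : ∀ ω, 0 < p ω → |lam ω| ≤ B)
    (he : ∀ ω, 0 < p ω → ∀ i, |mco (M ω) (e ω) i| ≤ B * 2 ^ q / 2 ^ c i)
    (V : F.Ω → S) (hV : ∀ ω ω', 0 < p ω → 0 < p ω' → V ω = V ω' →
      vsb F w c M lam e ω = vsb F w c M lam e ω' ∧ F.T ω = F.T ω' ∧
        ⌊(2 : ℝ) ^ q * lam ω⌋ = ⌊(2 : ℝ) ^ q * lam ω'⌋) :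
    CH p (F.blb w c M) V ≤ 2 * (m * Real.log (4 * (1 + 2 * B) + 3)) := by
  have key := Box.CH_of_nr (F := F) (g := w) (k := fun i => c i + w) (c := c) (M := M)
    (C := 2 * (1 + 2 * B)) hp V ?_
  · refine key.trans (le_of_eq ?_)
    congr 3
    ring
  intro ω ω' hω hω' h
  obtain ⟨h1, h2, h3⟩ := hV ω ω' hω hω' h
  rw [vsb_eq, vsb_eq] at h1
  have e1 := Prod.ext_iff.mp (Prod.ext_iff.mp h1).1
  have e2 := Prod.ext_iff.mp (Prod.ext_iff.mp h1).2
  have e3 := Prod.ext_iff.mp e2.2
  have hZ : F.Z ω = F.Z ω' := e1.1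
  have hM : M ω = M ω' := e1.2
  have hT1 : F.T1 w ω = F.T1 w ω' := by
    unfold Fam.T1
    rw [h2]
  refine ⟨?_, hT1, hM, hZ⟩
  have hst : flk (fun i => c i + w) (mco (M ω) (F.x ω)) =
      flk (fun i => c i + w) (mco (M ω) (F.x ω')) := by
    have : stc F w c M ω = stc F w c M ω' := e2.1
    unfold stc at this
    rw [← hM] at this
    exact this
  have hve : flk c (mco (M ω) (e ω)) = flk c (mco (M ω) (e ω')) := by
    have : vcl c M e ω = vcl c M e ω' := e3.1
    unfold vcl at this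
    rw [← hM] at this
    exact this
  have hvw : flk c (mco (M ω) (wv F lam e ω)) = flk c (mco (M ω) (wv F lam e ω')) := by
    have : vcl c M (wv F lam e) ω = vcl c M (wv F lam e) ω' := e3.2
    unfold vcl at this
    rw [← hM] at this
    exact this
  have ht : F.t ω = F.t ω' := by
    unfold Fam.t
    rw [h2]
  have n1 : Nr F (M ω) (F.t ω) (fun i => c i + w) c (1 + 2 * B) ω ω' := by
    refine ⟨fun i => ?_, fun i => ?_⟩
    · have c1 : F.xa (F.t ω) ω = F.x ω := rfl
      have c2 : F.xa (F.t ω) ω' = F.x ω' := by rw [ht]; rfl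
      rw [c1, c2]
      refine (Box.near_of_floor (k := c i + w) (congrFun hst i)).trans ?_
      exact div_le_div_of_nonneg_right (by linarith) (by positivity)
    · rw [mco_wv F (M ω) lam e ω i, mco_wv F (M ω) lam e ω' i]
      have k1 := Box.near_of_floor (k := c i) (congrFun hvw i)
      have k2 := Box.near_of_floor (k := c i) (congrFun hve i)
      have k3 := Box.near_of_floor (k := q) h3
      have k4 := he ω' hω' i
      rw [← hM] at k4
      have k5 := hlam ω hω
      have e4 : mco (M ω) (wv F lam e ω) i + lam ω * mco (M ω) (e ω) i -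
          (mco (M ω) (wv F lam e ω') i + lam ω' * mco (M ω) (e ω') i) =
          (mco (M ω) (wv F lam e ω) i - mco (M ω) (wv F lam e ω') i) +
          lam ω * (mco (M ω) (e ω) i - mco (M ω) (e ω') i) +
          (lam ω - lam ω') * mco (M ω) (e ω') i := by ring
      rw [e4]
      refine (abs_add_le _ _).trans ?_
      have k6 := abs_add_le (mco (M ω) (wv F lam e ω) i - mco (M ω) (wv F lam e ω') i)
        (lam ω * (mco (M ω) (e ω) i - mco (M ω) (e ω') i))
      have k7 : |lam ω * (mco (M ω) (e ω) i - mco (M ω) (e ω') i)| ≤ B * (1 / 2 ^ c i) := by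
        rw [abs_mul]
        exact mul_le_mul k5 k2 (abs_nonneg _) (by linarith)
      have k8 : |(lam ω - lam ω') * mco (M ω) (e ω') i| ≤
          1 / 2 ^ q * (B * 2 ^ q / 2 ^ c i) := by
        rw [abs_mul]
        exact mul_le_mul k3 k4 (abs_nonneg _) (by positivity)
      have k9 : 1 / 2 ^ q * (B * 2 ^ q / (2 : ℝ) ^ c i) = B * (1 / 2 ^ c i) := by
        have : (2 : ℝ) ^ q ≠ 0 := by positivity
        field_simp
      have k10 : (1 + 2 * B) / (2 : ℝ) ^ c i =
          1 / 2 ^ c i + B * (1 / 2 ^ c i) + B * (1 / 2 ^ c i) := by ring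
      rw [k10]
      rw [k9] at k8
      linarith
  have hs : |(F.T1 w ω : ℝ) / 2 ^ w - F.t ω| ≤ 1 / 2 ^ w := by
    have k1 := Lab.t_eq F hw ω
    have k2 := Lab.wt_mem F w ω
    have k3 : (F.T1 w ω : ℝ) / 2 ^ w - F.t ω = -(F.wt w ω * (2 ^ w)⁻¹) := by linarith
    rw [k3, abs_neg, abs_of_nonneg (mul_nonneg k2.1 (by positivity)), one_div]
    exact mul_le_of_le_one_left (by positivity) k2.2.le
  exact n1.time (by linarith) hs (fun i => le_rfl) (fun i => le_rfl)

end vis

/-! ### (b) The telescope -/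

section tel

variable {F : Fam m J} {p : F.Ω → ℝ} {M : F.Ω → Fin m → Fin m → ℝ}

/-- **(b)** The telescope of (H7): a fixed variable `L`, windows `w 0, w 1, ..`, the blocks of `X`
digits after the static cells. -/
theorem h7_sum {κ η : Type} (hp : IsLaw p) (n X : ℕ) (w : ℕ → ℕ) (c : ℕ → Fin m → ℕ)
    (H : ℕ → F.Ω → η) (L : F.Ω → κ)
    (hwc : ∀ j, j + 1 < n → ∀ i, c j i + w j + X ≤ c (j + 1) i + w (j + 1))
    (hH : ∀ j, j + 1 < n → Det p (H (j + 1)) (H j)) :
    ∑ j ∈ Finset.range n, dp p L (sbk F X (w j) (c j) M)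
      (fun ω => (vsh F (w j) (c j) M (H j) ω, F.T ω)) ≤
      CH p L (fun ω => (vsh F (w 0) (c 0) M (H 0) ω, F.T ω)) := by
  have key := tele hp n (fun _ => L) (fun j => sbk F X (w j) (c j) M)
    (fun j ω => (vsh F (w j) (c j) M (H j) ω, F.T ω)) (c₁ := 0) (c₂ := 0) le_rfl le_rfl
    (by
      intro j hj
      refine le_of_eq (CH_eq_zero hp.nonneg ?_)
      intro ω ω' hω hω' h
      obtain ⟨h1, h2⟩ := Prod.ext_iff.mp h
      obtain ⟨h3, h4⟩ := Prod.ext_iff.mp h1
      obtain ⟨h5, h6⟩ := Prod.ext_iff.mp h4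
      have h7 : sbk F X (w j) (c j) M ω = sbk F X (w j) (c j) M ω' := sbk_of_stc (hwc j hj) h5
      have h8 : stc F (w j) (c j) M ω = stc F (w j) (c j) M ω' := stc_of_sbk h7
      have h9 : H j ω = H j ω' := hH j hj ω ω' hω hω' h6
      exact Prod.ext h7 (Prod.ext (Prod.ext h3 (Prod.ext h8 h9)) h2))
    (by
      intro j hj
      refine le_of_eq (CH_eq_zero hp.nonneg ?_)
      intro ω ω' _ _ h
      exact (Prod.ext_iff.mp h).1)
  refine key.trans (le_of_eq ?_)
  ring

/-- **(b)** for the visible parts `vsb`. -/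
theorem h7_sum' {κ : Type} (hp : IsLaw p) (n X : ℕ) (w : ℕ → ℕ) (c : ℕ → Fin m → ℕ)
    {lam : F.Ω → ℝ} {e : F.Ω → Fin m → ℝ} (L : F.Ω → κ)
    (hwc : ∀ j, j + 1 < n → ∀ i, c j i + w j + X ≤ c (j + 1) i + w (j + 1))
    (hc : ∀ j, j + 1 < n → ∀ i, c j i ≤ c (j + 1) i) :
    ∑ j ∈ Finset.range n, dp p L (sbk F X (w j) (c j) M)
      (fun ω => (vsb F (w j) (c j) M lam e ω, F.T ω)) ≤
      CH p L (fun ω => (vsb F (w 0) (c 0) M lam e ω, F.T ω)) :=
  h7_sum hp n X w c (fun j => own F (c j) M lam e) L hwc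
    (fun j hj _ _ _ _ h => own_le (hc j hj) h)

end tel

end Pool.H7T
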